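import Mathlib
import Pool.Agent.MonoTri.Defs
import Pool.Agent.MonoTri.Final

set_option autoImplicit false

namespace Pool.Agent.Results.MP_039c6c_co.RationalMultiple

open Pool.Agent.MonoTri

/-- The counting polynomials `α(n; ·)` of monotone triangles exist and are unique, and for every
`k ≥ 4` there are polynomials `p, q` with rational coefficients and `deg p - deg q = k - 3` such
that `q(n) ≠ 0` and `T_k(n) = p(n) / q(n) * A_{n-1}` for all integers `n ≥ k`. -/
theorem result : (∀ n, ∃! P : MvPolynomial (Fin n) ℚ, IsAlpha n P) ∧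
    ∀ α : (n : ℕ) → MvPolynomial (Fin n) ℚ, (∀ n, IsAlpha n (α n)) →
      ∀ k : ℕ, 4 ≤ k → ∃ p q : Polynomial ℚ, p.natDegree = q.natDegree + (k - 3) ∧
        ∀ n : ℕ, k ≤ n → q.eval (n : ℚ) ≠ 0 ∧
          Tval k n (α (n + 1)) = p.eval (n : ℚ) / q.eval (n : ℚ) * Aval (n - 1) (α (n - 1)) :=
  main

end Pool.Agent.Results.MP_039c6c_co.RationalMultiple
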